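import Pool.Agent.D0H17.SH.Defs
import Pool.Agent.D0H17.GE.Mult

set_option autoImplicit false

/-! Project SH, module N2: the multiplicity of the sums of shifted powers over the wide set. -/

namespace Pool.Agent.D0H10.SH

open Finset Pool.Agent.D0H17.GE Pool.Agent.D0H17.SH

lemma pow_gap {n : ℕ} {x y : ℝ} (hy : 0 ≤ y) (hxy : y ≤ x) :
    (x - y) * y ^ (n + 1) ≤ x ^ (n + 2) - y ^ (n + 2) := by
  have hx : 0 ≤ x := hy.trans hxy
  have h3 : y ^ (n + 1) ≤ x ^ (n + 1) := pow_le_pow_left₀ hy hxy _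
  have h4 := mul_le_mul_of_nonneg_left h3 hx
  have h1 : x ^ (n + 2) = x * x ^ (n + 1) := by ring
  have h2 : y ^ (n + 2) = y * y ^ (n + 1) := by ring
  rw [h1, h2]
  linarith

lemma cardA {n : ℕ} {p0 w C θ : ℝ} (A : Finset ℕ) (hθ : 0 ≤ θ) (hp0 : 1 ≤ p0) (hC : 0 ≤ C)
    (hA : ∀ m ∈ A, p0 ≤ (m : ℝ) ∧ |w - ((m : ℝ) + θ) ^ (n + 2)| < C * p0 ^ (n + 1)) :
    (A.card : ℝ) ≤ 2 * C + 1 := by
  rcases A.eq_empty_or_nonempty with h | h
  · rw [h, card_empty]
    simp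
    linarith
  · set n0 := A.min' h with hn0
    have hn0A : n0 ∈ A := min'_mem A h
    have hp : 0 < p0 ^ (n + 1) := pow_pos (by linarith) _
    obtain ⟨h1, h2⟩ := hA n0 hn0A
    have hsub : A ⊆ Icc n0 (n0 + ⌊2 * C⌋₊) := by
      intro m hm
      rw [mem_Icc]
      have h3 : n0 ≤ m := min'_le A m hm
      refine ⟨h3, ?_⟩
      obtain ⟨h4, h5⟩ := hA m hm
      have h3' : (n0 : ℝ) ≤ m := by exact_mod_cast h3
      have h6 := pow_gap (n := n) (by linarith : (0 : ℝ) ≤ (n0 : ℝ) + θ) (by linarith : (n0 : ℝ) + θ ≤ (m : ℝ) + θ)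
      have h7 : p0 ^ (n + 1) ≤ ((n0 : ℝ) + θ) ^ (n + 1) := pow_le_pow_left₀ (by linarith) (by linarith) _
      have h8 : ((m : ℝ) + θ - ((n0 : ℝ) + θ)) * p0 ^ (n + 1) ≤ ((m : ℝ) + θ) ^ (n + 2) - ((n0 : ℝ) + θ) ^ (n + 2) :=
        (mul_le_mul_of_nonneg_left h7 (by linarith)).trans h6
      rw [abs_lt] at h2 h5
      have h9 : ((m : ℝ) - n0) * p0 ^ (n + 1) < 2 * C * p0 ^ (n + 1) := by
        have h10 : (m : ℝ) + θ - ((n0 : ℝ) + θ) = (m : ℝ) - n0 := by ring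
        rw [h10] at h8
        linarith [h2.1, h2.2, h5.1, h5.2]
      have h10 : (m : ℝ) - n0 < 2 * C := lt_of_mul_lt_mul_right h9 hp.le
      have h11 : ((m - n0 : ℕ) : ℝ) ≤ 2 * C := by
        rw [Nat.cast_sub h3]
        linarith
      have h12 : m - n0 ≤ ⌊2 * C⌋₊ := Nat.le_floor h11
      omega
    have h3 := card_le_card hsub
    rw [Nat.card_Icc] at h3
    have h4 : A.card ≤ ⌊2 * C⌋₊ + 1 := by omega
    have h5 : (A.card : ℝ) ≤ (⌊2 * C⌋₊ : ℝ) + 1 := by exact_mod_cast h4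
    have h6 : (⌊2 * C⌋₊ : ℝ) ≤ 2 * C := Nat.floor_le (by linarith)
    linarith

lemma SN_succ {Λ K : ℝ} {n j t : ℕ} {p : ℕ → ℝ} (h : SN Λ K n j (t + 1) p) :
    SN Λ K n j t (fun i => p (i + 1)) where
  big := fun i hi => h.big (i + 1) (by omega)
  top := fun i hi => h.top (i + 1) (by omega)
  step := fun i hi => h.step (i + 1) (by omega)
  gap := fun i hi => h.gap (i + 1) (by omega)

lemma SN_anti {K : ℝ} {n j t : ℕ} {p : ℕ → ℝ} (h : SN 1 K n j t p) {i l : ℕ} (hil : i ≤ l) (hl : l ≤ t) :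
    p l ≤ p i := by
  induction l, hil using Nat.le_induction with
  | base => exact le_refl _
  | succ l hl' ih =>
    have h1 := h.gap l (by omega)
    rw [one_mul] at h1
    exact h1.trans (ih (by omega))

lemma TT_succ {t : ℕ} (m : ℕ) (θ : ℝ) (u : Fin (t + 1) → ℕ) :
    TT m θ u = ((u 0 : ℝ) + θ) ^ m + TT m θ (Fin.tail u) := by
  unfold TT
  rw [Fin.sum_univ_succ]
  rfl

lemma TT_nonneg {t : ℕ} (m : ℕ) {θ : ℝ} (hθ : 0 ≤ θ) (u : Fin t → ℕ) : 0 ≤ TT m θ u := by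
  unfold TT
  exact sum_nonneg fun i _ => pow_nonneg (add_nonneg (Nat.cast_nonneg _) hθ) _

lemma TT_tail_le {K θ : ℝ} {n j R t : ℕ} {p : ℕ → ℝ} (hK : 1 ≤ K) (h : SN 1 K n j (t + 1) p)
    (hθ : 0 ≤ θ) (hθ1 : θ ≤ 1) (u : Fin (t + 1) → ℕ) (hu : u ∈ XS R (t + 1) (fun i => p (i + 1))) :
    TT (n + 2) θ u ≤ (t + 1) * (((R : ℝ) + 1) * K) ^ (n + 2) * p 0 ^ (n + 1) := by
  have hpos : ∀ i ≤ t + 1, 1 ≤ p i := fun i hi => h.big i hi
  rw [mem_XS (p := fun i => p (i + 1))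
    (fun i => by have := hpos (i + 1) (by have := i.2; omega); linarith)] at hu
  unfold TT
  have hR : (0 : ℝ) ≤ R := Nat.cast_nonneg R
  have h1 : ∀ i : Fin (t + 1), ((u i : ℝ) + θ) ^ (n + 2) ≤ (((R : ℝ) + 1) * K) ^ (n + 2) * p 0 ^ (n + 1) := by
    intro i
    have h2 : p (i + 1) ≤ p 1 := SN_anti h (by omega) (by have := i.2; omega)
    have h3 : (u i : ℝ) ≤ R * p 1 := (hu i).2.trans (mul_le_mul_of_nonneg_left h2 hR)
    have h4 : (u i : ℝ) + θ ≤ (R + 1) * p 1 := by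
      have := hpos 1 (by omega)
      linarith
    calc ((u i : ℝ) + θ) ^ (n + 2) ≤ ((R + 1) * p 1) ^ (n + 2) :=
          pow_le_pow_left₀ (add_nonneg (Nat.cast_nonneg _) hθ) h4 _
      _ = ((R : ℝ) + 1) ^ (n + 2) * p 1 ^ (n + 2) := mul_pow _ _ _
      _ = (((R : ℝ) + 1) * K) ^ (n + 2) * p 0 ^ (n + 1) := by
          have h5 := h.step 0 (by omega)
          rw [zero_add] at h5
          rw [h5, mul_pow]
          ring
  refine (sum_le_sum fun i _ => h1 i).trans (le_of_eq ?_)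
  rw [sum_const, card_univ, Fintype.card_fin, nsmul_eq_mul]
  push_cast
  ring

/-- N2 -/
theorem mult (n R t : ℕ) (K CG : ℝ) (hK : 1 ≤ K) (hCG : 0 ≤ CG) : ∃ C0 : ℝ, 0 < C0 ∧ ∀ (j : ℕ) (p : ℕ → ℝ),
    SN 1 K n j t p → ∀ θ w g : ℝ, 0 ≤ θ → θ ≤ 1 → g ≤ CG * p t ^ (n + 1) →
      (((XS R (t + 1) p).filter fun u => |w - TT (n + 2) θ u| < g).card : ℝ) ≤ C0 := by
  induction t with
  | zero =>
    refine ⟨2 * CG + 1, by linarith, fun j p h θ w g hθ _ hg => ?_⟩
    have hp0 : 1 ≤ p 0 := h.big 0 (le_refl _)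
    have hinj : Set.InjOn (fun u : Fin 1 → ℕ => u 0)
        ((XS R (0 + 1) p).filter fun u => |w - TT (n + 2) θ u| < g : Finset (Fin (0 + 1) → ℕ)) := by
      intro u _ v _ huv
      funext i
      rw [Fin.eq_zero i]
      exact huv
    rw [← card_image_of_injOn hinj]
    refine cardA (w := w) (n := n) (p0 := p 0) (θ := θ) _ hθ hp0 hCG ?_
    intro m hm
    rw [mem_image] at hm
    obtain ⟨u, hu, rfl⟩ := hm
    rw [mem_filter, mem_XS (fun i => by rw [Fin.eq_zero i]; simpa using (by linarith : 0 ≤ p 0))] at hu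
    have h1 := hu.1 0
    refine ⟨by simpa using h1.1, lt_of_lt_of_le ?_ hg⟩
    have h2 := hu.2
    rw [TT_succ] at h2
    have h3 : TT (n + 2) θ (Fin.tail u) = 0 := by
      unfold TT
      simp
    rw [h3, add_zero] at h2
    exact h2
  | succ t ih =>
    obtain ⟨C0, hC0, ih⟩ := ih
    obtain ⟨C1, hC1⟩ : ∃ C1 : ℝ, C1 = CG + (t + 1) * (((R : ℝ) + 1) * K) ^ (n + 2) := ⟨_, rfl⟩
    have hRK : (0 : ℝ) ≤ ((R : ℝ) + 1) * K :=
      mul_nonneg (by have := Nat.cast_nonneg (α := ℝ) R; linarith) (by linarith)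
    have hC10 : 0 ≤ C1 := by rw [hC1]; positivity
    refine ⟨C0 * (2 * C1 + 1), by positivity, fun j p h θ w g hθ hθ1 hg => ?_⟩
    have hp0 : 1 ≤ p 0 := h.big 0 (by omega)
    have hpt0 : 0 < p (t + 1) := by linarith [h.big (t + 1) (le_refl _)]
    have hple : p (t + 1) ^ (n + 1) ≤ p 0 ^ (n + 1) :=
      pow_le_pow_left₀ hpt0.le (SN_anti h (by omega) (le_refl _)) _
    set s := (XS R (t + 1 + 1) p).filter fun u => |w - TT (n + 2) θ u| < g with hs
    have himg : ((s.image fun u => u 0).card : ℝ) ≤ 2 * C1 + 1 := by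
      refine cardA (w := w) (n := n) (p0 := p 0) (θ := θ) _ hθ hp0 hC10 ?_
      intro m hm
      rw [mem_image] at hm
      obtain ⟨u, hu, rfl⟩ := hm
      rw [hs, mem_filter] at hu
      have h1 := (mem_XS (fun i => by
        have := h.big i (by have := i.2; omega)
        linarith)).1 hu.1 0
      refine ⟨by simpa using h1.1, ?_⟩
      have h2 := hu.2
      rw [TT_succ] at h2
      have h3 := TT_tail_le hK h hθ hθ1 (Fin.tail u) (tail_mem hu.1)
      have h4 := TT_nonneg (n + 2) hθ (Fin.tail u)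
      have h7 : g ≤ CG * p 0 ^ (n + 1) := hg.trans (mul_le_mul_of_nonneg_left hple hCG)
      rw [hC1, add_mul]
      rw [abs_lt] at h2 ⊢
      constructor <;> linarith [h2.1, h2.2]
    have hfib : ∀ a ∈ s.image fun u => u 0, (s.filter fun u => u 0 = a).card ≤ ⌊C0⌋₊ := by
      intro a _
      have h1 := ih j (fun i => p (i + 1)) (SN_succ h) θ (w - ((a : ℝ) + θ) ^ (n + 2)) g hθ hθ1 hg
      apply Nat.le_floor
      refine le_trans ?_ h1
      have h2 : (s.filter fun u => u 0 = a).card ≤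
          ((XS R (t + 1) (fun i => p (i + 1))).filter fun v =>
            |w - ((a : ℝ) + θ) ^ (n + 2) - TT (n + 2) θ v| < g).card := by
        refine card_le_card_of_injOn (fun u => Fin.tail u) ?_ ?_
        · intro u hu
          rw [mem_coe, mem_filter, hs, mem_filter] at hu
          rw [mem_coe, mem_filter]
          refine ⟨tail_mem hu.1.1, ?_⟩
          have h3 := hu.1.2
          rw [TT_succ, hu.2] at h3
          rw [show w - ((a : ℝ) + θ) ^ (n + 2) - TT (n + 2) θ (Fin.tail u) =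
            w - (((a : ℝ) + θ) ^ (n + 2) + TT (n + 2) θ (Fin.tail u)) by ring]
          exact h3
        · intro u hu v hv huv
          rw [mem_coe, mem_filter] at hu hv
          have h3 : Fin.cons (u 0) (Fin.tail u) = (Fin.cons (v 0) (Fin.tail v) : Fin (t + 1 + 1) → ℕ) := by
            rw [hu.2, hv.2]
            congr 1
          rw [Fin.cons_self_tail, Fin.cons_self_tail] at h3
          exact h3
      exact_mod_cast h2
    have h1 := card_le_mul_card_image s ⌊C0⌋₊ hfib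
    have h2 : (s.card : ℝ) ≤ (⌊C0⌋₊ : ℝ) * ((s.image fun u => u 0).card : ℝ) := by exact_mod_cast h1
    refine h2.trans (mul_le_mul (Nat.floor_le hC0.le) himg (Nat.cast_nonneg _) hC0.le)

end Pool.Agent.D0H10.SH
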